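import Mathlib
import Pool.Agent.Lib.MP_3ae5b0_nt.Main

/-!
# Representations of `n` as `x y z + x + y + z`: the exponent `8/25`

The number `r(n)` of ordered triples of positive integers with `n = x y z + x + y + z` is
`O_ε (n ^ (8/25 + ε))`, which improves the elementary exponent `1/3`.

Method: solutions whose smallest variable is at most `n ^ (8/25 + ε)` are counted with the divisor
bound. For the others let `z` be the largest variable, in a dyadic interval `[Z, 2Z)`, and put
`D = x y + 1`; then `n = z D + x + y`, so `D` is close to `n / z` and `(z, D)` determines the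
solution. Modulo a prime `p` the pair `(z, D)` misses about half of the `p ^ 2` classes, because
`(x, y, z)` and `(y, x, z)` give the same pair. A two-dimensional large sieve over primes, with a
Gaussian weight in `D` (Poisson summation) and van der Corput's method for the exponential sums
`∑ e(β z + γ n / z)`, gives the saving.
-/

set_option autoImplicit false

namespace Pool.Agent.Results.MP_3ae5b0_nt.PowerSaving

open Pool.Agent.Lib.MP_3ae5b0_nt

/-- For every `ε > 0` there is a constant `C` such that, for all `n ≥ 1`, the number of ordered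
triples of positive integers `(x, y, z)` with `n = x y z + x + y + z` is at most
`C n ^ (8/25 + ε)`. -/
theorem result :
    ∀ ε : ℝ, 0 < ε → ∃ C : ℝ, ∀ n : ℕ, 1 ≤ n →
      (({p : ℕ × ℕ × ℕ | 0 < p.1 ∧ 0 < p.2.1 ∧ 0 < p.2.2 ∧
          n = p.1 * p.2.1 * p.2.2 + p.1 + p.2.1 + p.2.2}.ncard : ℝ))
        ≤ C * (n : ℝ) ^ (8 / 25 + ε) := by
  intro ε hε
  obtain ⟨C, hC⟩ := main_bound ε hε
  refine ⟨C, fun n hn => ?_⟩
  rw [ncard_eq]
  exact hC n hn

end Pool.Agent.Results.MP_3ae5b0_nt.PowerSaving
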