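import Mathlib
import Pool.Agent.Lib.MP_3ae5b0_nt.MomentE

/-!
# Representations of `n` as `x y z + x + y + z`: the second moment

Let `r(n)` be the number of ordered triples of positive integers with `n = x y z + x + y + z`.
Then `∑_{n ≤ X} r(n) ^ 2 = O_ε (X ^ (7/6 + ε))`; the elementary bound `r(n) = O_ε (n ^ (1/3 + ε))`
gives only `X ^ (4/3 + ε)`.

Method: count the pairs of triples with the same `n`. Up to a factor `18`, let `x` be the smallest
variable of the first triple and `w` the largest variable of all, in the second triple `(u, v, w)`,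
and put `D = u v + 1`. Multiply the equation by `t`, where `t x = a + b D` with `1 ≤ t ≤ D / √x`
and `a ^ 2 < x` (Dirichlet). Then `(a y + t) (a z + t) = a (k D - t (x - u - v)) + t ^ 2` with an
integer `|k| ≤ 11 X / (√x D)`, so for given `x, u, v` the divisor bound leaves
`O (X ^ ε (1 + X / (√x D)))` choices for `(y, z, w)`. Pairs `(x, D)` with `x ≤ gcd(x, D) ^ 2`
(where `a` may be `0`) and the degenerate sextuples (a factor is `0`, or `D ^ 2 < x`) are counted
separately.
-/

set_option autoImplicit false

namespace Pool.Agent.Results.MP_3ae5b0_nt.SecondMoment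

open Pool.Agent.Lib.MP_3ae5b0_nt.Mo

/-- For every `ε > 0` there is a constant `C` such that, for all `X ≥ 1`, the sum over
`1 ≤ n ≤ X` of the squares of the number of ordered triples of positive integers `(x, y, z)` with
`n = x y z + x + y + z` is at most `C X ^ (7/6 + ε)`. -/
theorem result :
    ∀ ε : ℝ, 0 < ε → ∃ C : ℝ, ∀ X : ℕ, 1 ≤ X →
      ∑ n ∈ Finset.Icc 1 X,
        (({p : ℕ × ℕ × ℕ | 0 < p.1 ∧ 0 < p.2.1 ∧ 0 < p.2.2 ∧
          n = p.1 * p.2.1 * p.2.2 + p.1 + p.2.1 + p.2.2}.ncard : ℝ)) ^ 2
        ≤ C * (X : ℝ) ^ (7 / 6 + ε) := by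
  intro ε hε
  exact second_moment ε hε

end Pool.Agent.Results.MP_3ae5b0_nt.SecondMoment
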